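import Pool.Agent.MP_8ed1d4_al.Invol

set_option autoImplicit false

namespace Pool.Agent.Results.MP_8ed1d4_al.Involution

open Pool.Agent.MP_8ed1d4_al

/-- Herstein's conjecture for division rings with an involution: it suffices that, for
commutators of two symmetric elements, a central power can be taken symmetric (automatic when
the involution fixes the centre pointwise). -/
theorem result (D : Type) [DivisionRing D] [StarRing D] :
      (∀ x y : D, x ≠ 0 → y ≠ 0 →
        ∃ n : ℕ, 0 < n ∧ (x * y * x⁻¹ * y⁻¹) ^ n ∈ Subring.center D ∧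
          (star x = x → star y = y →
            star ((x * y * x⁻¹ * y⁻¹) ^ n) = (x * y * x⁻¹ * y⁻¹) ^ n)) →
      ∀ a b : D, a * b = b * a := by
  intro h
  have H := hyp_center (D := D) (fun x y hx hy => by
    obtain ⟨n, hn, hc, -⟩ := h x y hx hy
    exact ⟨n, hn, hc⟩)
  refine H.comm_of_symm (fun s r hs hr => ?_)
  by_cases hs0 : s = 0
  · simp [hs0]
  by_cases hr0 : r = 0
  · simp [hr0]
  obtain ⟨n, hn, hc, hf⟩ := h s r hs0 hr0
  exact H.symm_comm hs hr hn (Subring.mem_center_iff.1 hc) (hf hs hr)

end Pool.Agent.Results.MP_8ed1d4_al.Involution
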