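import Pool.Agent.MP_8ed1d4_al.LocBdd

set_option autoImplicit false

namespace Pool.Agent.Results.MP_8ed1d4_al.LocBounded

open Pool.Agent.MP_8ed1d4_al

/-- Herstein's conjecture for division rings with a Hausdorff ring topology that is not discrete
and has a bounded neighbourhood of zero. -/
theorem result (D : Type) [DivisionRing D] [TopologicalSpace D] [IsTopologicalRing D]
    [T2Space D] :
      ¬ DiscreteTopology D →
      (∃ U ∈ nhds (0 : D), ∀ V ∈ nhds (0 : D), ∃ W ∈ nhds (0 : D),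
        ∀ w ∈ W, ∀ u ∈ U, w * u ∈ V) →
      (∀ x y : D, x ≠ 0 → y ≠ 0 →
        ∃ n : ℕ, 0 < n ∧ (x * y * x⁻¹ * y⁻¹) ^ n ∈ Subring.center D) →
      ∀ a b : D, a * b = b * a := by
  rintro hd ⟨U, hU, hb⟩ h
  refine comm_of_locBdd h (fun W hW => ?_) hU hb
  by_contra hc
  push Not at hc
  refine hd (discreteTopology_of_isOpen_singleton_zero (isOpen_iff_mem_nhds.2 ?_))
  rintro _ rfl
  exact Filter.mem_of_superset hW hc

end Pool.Agent.Results.MP_8ed1d4_al.LocBounded
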