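import Pool.Agent.MP_8ed1d4_al.Units

set_option autoImplicit false

namespace Pool.Agent.Results.MP_8ed1d4_al.Subrings

open Pool.Agent.MP_8ed1d4_al

/-- Under Herstein's hypothesis every subring has a commutative group of units or is a division
ring. -/
theorem result (D : Type) [DivisionRing D] :
      (∀ x y : D, x ≠ 0 → y ≠ 0 →
        ∃ n : ℕ, 0 < n ∧ (x * y * x⁻¹ * y⁻¹) ^ n ∈ Subring.center D) →
      ∀ L : Subring D, (∀ u v : Lˣ, u * v = v * u) ∨ ∀ y : L, y ≠ 0 → IsUnit y := by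
  intro h L
  by_cases hc : ∀ u v : Lˣ, u * v = v * u
  · exact Or.inl hc
  refine Or.inr fun y hy => ?_
  push Not at hc
  obtain ⟨u, v, huv⟩ := hc
  have key : ∀ z : Lˣ, ((z : L) : D)⁻¹ ∈ L := fun z =>
    inv_mem_of_mul ((z⁻¹ : Lˣ) : L).2 (congrArg Subtype.val z.mul_inv)
  have h0 : (y : D) ≠ 0 := fun e => hy (Subtype.ext e)
  have h1 := inv_mem_of_units h L (u : L).2 (key u) (v : L).2 (key v)
    (fun e => huv (Units.ext (Subtype.ext e))) y.2
  exact ⟨⟨y, ⟨_, h1⟩, Subtype.ext (mul_inv_cancel₀ h0), Subtype.ext (inv_mul_cancel₀ h0)⟩, rfl⟩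

end Pool.Agent.Results.MP_8ed1d4_al.Subrings
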