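import Pool.Agent.MP_8ed1d4_al.Trace

set_option autoImplicit false

namespace Pool.Agent.Results.MP_8ed1d4_al.Trace

open Pool.Agent.MP_8ed1d4_al

/-- If all multiplicative commutators of `D` are periodic modulo the centre, then every division
subring `S` of `D` (for example `D` itself) having an element that is not a finite sum of additive
commutators of elements of `S` is commutative. -/
theorem result :
    ∀ (D : Type) [DivisionRing D],
      (∀ x y : D, x ≠ 0 → y ≠ 0 →
        ∃ n : ℕ, 0 < n ∧ (x * y * x⁻¹ * y⁻¹) ^ n ∈ Subring.center D) →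
      ∀ S : Subfield D,
        (∃ s ∈ S, s ∉ AddSubgroup.closure {c : D | ∃ a ∈ S, ∃ b ∈ S, c = a * b - b * a}) →
        ∀ a ∈ S, ∀ b ∈ S, a * b = b * a := by
  intro D _ h S ⟨s, hs, hns⟩ a ha b hb
  by_contra hab
  have H : Hyp (Subring.center S) S := hyp_center (fun x y hx hy => by
    obtain ⟨n, hn, hm⟩ := h x y (by simpa using hx) (by simpa using hy)
    refine ⟨n, hn, Subring.mem_center_iff.2 (fun g => Subtype.ext ?_)⟩
    simpa using Subring.mem_center_iff.1 hm g)
  have htop := H.closure_eq_top (a := ⟨a, ha⟩) (b := ⟨b, hb⟩)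
    (fun h => hab (congrArg Subtype.val h))
  have h1 : (⟨s, hs⟩ : S) ∈ AddSubgroup.closure {c : S | ∃ a b : S, c = a * b - b * a} := by
    rw [htop]; trivial
  apply hns
  have key : ∀ x : S, x ∈ AddSubgroup.closure {c : S | ∃ a b : S, c = a * b - b * a} →
      (x : D) ∈ AddSubgroup.closure {c : D | ∃ a ∈ S, ∃ b ∈ S, c = a * b - b * a} := by
    intro x hx
    induction hx using AddSubgroup.closure_induction with
    | mem x hx =>
      obtain ⟨a, b, rfl⟩ := hx
      exact AddSubgroup.subset_closure ⟨a, a.2, b, b.2, by simp⟩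
    | zero => exact AddSubgroup.zero_mem _
    | add x y _ _ hx hy => exact AddSubgroup.add_mem _ hx hy
    | neg x _ hx => exact AddSubgroup.neg_mem _ hx
  exact key _ h1

end Pool.Agent.Results.MP_8ed1d4_al.Trace
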